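import Pool.Agent.H587R2.NCE.Red

/-!
Problem MP_535d4d_lc, Q1, answered in the negative for every `n ≥ 2`: there is a d-c.e. Turing
degree `a` which is not c.e. and such that for every `n ≥ 2` the degree `a` has no cover in the
partial order of the `n`-c.e. degrees.
-/

namespace Pool.Agent.Results.MP_535d4d_lc.NoCoverAllLevels

/-- The characteristic function of a set of natural numbers. -/
noncomputable def charFun (A : Set ℕ) : ℕ →. ℕ := fun n =>
  Part.some (open Classical in if n ∈ A then 1 else 0)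

/-- The Turing degree of a set of natural numbers (Mathlib's Turing degrees). -/
noncomputable def degree (A : Set ℕ) : TuringDegree :=
  toAntisymmetrization TuringReducible (charFun A)

/-- `A` is `n`-c.e.: there is a computable approximation `g x s` (the value at `x` at stage `s`)
with `g x 0 = 0`, converging to `A`, which changes at most `n` times on every `x`. -/
def IsNCE (n : ℕ) (A : Set ℕ) : Prop :=
  ∃ g : ℕ → ℕ → Bool, Computable₂ g ∧ ∀ x, g x 0 = false ∧
    (∃ t, ∀ s ≥ t, (g x s = true ↔ x ∈ A)) ∧ {s | g x s ≠ g x (s + 1)}.encard ≤ n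

/-- A Turing degree is `n`-c.e. if it contains an `n`-c.e. set. -/
def NCEDegree (n : ℕ) (a : TuringDegree) : Prop := ∃ A : Set ℕ, IsNCE n A ∧ degree A = a

/-- A Turing degree is c.e. if it contains a computably enumerable set. -/
def CEDegree (a : TuringDegree) : Prop := ∃ A : Set ℕ, REPred (fun x => x ∈ A) ∧ degree A = a

open Pool.Agent.H587R2.NCE Pool.Agent.Helper446 Pool.Agent.Helper446.Oracle in
/-- There is a d-c.e. degree `a` which is not c.e. and which for no `n ≥ 2` has a cover in the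
`n`-c.e. degrees: if `b > a` is `n`-c.e., then some `n`-c.e. `c` satisfies `a < c < b`. -/
theorem result : ∃ a : TuringDegree, NCEDegree 2 a ∧ ¬ CEDegree a ∧
    ∀ n ≥ 2, NCEDegree n a ∧
      ∀ b, NCEDegree n b → a < b → ∃ c, NCEDegree n c ∧ a < c ∧ c < b := by
  classical
  have hchi : ∀ S : Set ℕ, charFun S = Defs.chi S := fun S => rfl
  have hle : ∀ S S' : Set ℕ, degree S ≤ degree S' ↔
      TuringReducible (Defs.chi S) (Defs.chi S') := by
    intro S S'
    rw [← hchi, ← hchi]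
    exact Iff.rfl
  have hst : ∀ S : Set ℕ, S = st (fun x => decide (x ∈ S)) := by
    intro S
    ext x
    show x ∈ S ↔ decide (x ∈ S) = true
    simp
  have hR : ∀ X Y : ℕ → Bool, degree (st X) ≤ degree (st Y) ↔ R X Y := by
    intro X Y
    rw [hle, R_iff]
  have hApx : ∀ (n : ℕ) (g : ℕ → ℕ → Bool) (M : ℕ → Bool), Apx n g M → IsNCE n (st M) := by
    intro n g M h
    refine ⟨g, h.comp, fun x => ⟨h.zero x, ?_, h.chg x⟩⟩
    obtain ⟨t, ht⟩ := h.lim x
    refine ⟨t, fun s hs => ?_⟩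
    rw [ht s hs]
    exact Iff.rfl
  have hApx' : ∀ (n : ℕ) (S : Set ℕ), IsNCE n S →
      ∃ g, Apx n g (fun x => decide (x ∈ S)) := by
    rintro n S ⟨g, h1, h2⟩
    refine ⟨g, h1, fun x => (h2 x).1, fun x => ?_, fun x => (h2 x).2.2⟩
    obtain ⟨t, ht⟩ := (h2 x).2.1
    refine ⟨t, fun s hs => ?_⟩
    rw [Bool.eq_iff_iff, ht s hs, decide_eq_true_eq]
  have hmono : ∀ n ≥ 2, IsNCE n (st A) := by
    intro n hn
    obtain ⟨g, h1, h2⟩ := hApx 2 _ _ A_apx
    refine ⟨g, h1, fun x => ⟨(h2 x).1, (h2 x).2.1, (h2 x).2.2.trans ?_⟩⟩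
    exact_mod_cast hn
  refine ⟨degree (st A), ⟨st A, hApx 2 _ _ A_apx, rfl⟩, ?_, fun n hn =>
    ⟨⟨st A, hmono n hn, rfl⟩, ?_⟩⟩
  · rintro ⟨W, hW, heq⟩
    rw [hst W] at heq
    have h1 : R (fun x => decide (x ∈ W)) A := (hR _ _).1 heq.le
    have h2 : R A (fun x => decide (x ∈ W)) := (hR _ _).1 heq.ge
    refine not_ce (W := fun x => decide (x ∈ W)) ?_ h2.1 h2.2 h1.1 h1.2
    refine hW.of_eq fun x => ?_
    simp
  · rintro b ⟨B, hB, rfl⟩ hlt
    obtain ⟨g, hg⟩ := hApx' n B hB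
    rw [hst B] at hlt ⊢
    obtain ⟨g', C, h1, h2, h3, h4, h5⟩ := main hn hg ((hR _ _).1 hlt.le)
      (fun h => not_le_of_gt hlt ((hR _ _).2 h))
    refine ⟨degree (st C), ⟨st C, hApx n _ _ h1, rfl⟩, ?_, ?_⟩
    · exact lt_of_le_not_ge ((hR _ _).2 h2) (fun h => h3 ((hR _ _).1 h))
    · exact lt_of_le_not_ge ((hR _ _).2 h4) (fun h => h5 ((hR _ _).1 h))

end Pool.Agent.Results.MP_535d4d_lc.NoCoverAllLevels
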